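import Mathlib
import Pool.Agent.Helper112.MultLS

/-!
# Large sieve for the classes modulo primes, with the maximum over the length inside
-/

set_option autoImplicit false

open Finset

namespace Pool.Agent.Run7.h129.MC

open Pool.Agent.Helper112

/-- the error term of the sequence `f` in the class `a` modulo `q` -/
noncomputable def Dd (f : ℕ → ℝ) (q a y : ℕ) : ℝ :=
  ∑ n ∈ Ioc 0 y, (if n % q = a then f n else 0) - (∑ n ∈ Ioc 0 y, f n) / q

lemma Dd_zero (f : ℕ → ℝ) (q a : ℕ) : Dd f q a 0 = 0 := by simp [Dd]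

lemma Dd_sub (f : ℕ → ℝ) (q a s N : ℕ) : Dd f q a (s + N) - Dd f q a s =
    ∑ n ∈ Icc 1 N, (if (s + n) % q = a then f (s + n) else 0) - (∑ n ∈ Icc 1 N, f (s + n)) / q := by
  have h : ∀ g : ℕ → ℝ, ∑ n ∈ Ioc 0 (s + N), g n = ∑ n ∈ Ioc 0 s, g n + ∑ n ∈ Icc 1 N, g (s + n) := by
    intro g
    induction N with
    | zero => simp
    | succ N ih =>
      rw [← add_assoc, sum_Ioc_succ_top (Nat.zero_le _), ih, sum_Icc_succ_top (by omega), add_assoc, add_assoc]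
  unfold Dd
  rw [h, h]
  ring

lemma perq (f : ℕ → ℝ) {q : ℕ} (hq : q.Prime) (s N : ℕ) :
    (q : ℝ) * ∑ a ∈ range q, (Dd f q a (s + N) - Dd f q a s) ^ 2 =
      ∑ b ∈ (range q).filter (fun b => b.Coprime q),
        ‖∑ n ∈ Icc 1 N, ((f (s + n) : ℝ) : ℂ) * ee (n * b / q)‖ ^ 2 := by
  have : NeZero q := ⟨hq.ne_zero⟩
  have : Fact q.Prime := ⟨hq⟩
  set α : ℕ → ℂ := fun n => ((f (s + n) : ℝ) : ℂ) with hα
  set Z : ℂ := ∑ n ∈ Icc 1 N, α n with hZ
  set Φ : ZMod q → ℂ := fun c => ∑ n ∈ Icc 1 N, (if (n : ZMod q) = c then α n else 0) - Z / q with hΦ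
  have hq0 : (q : ℂ) ≠ 0 := by exact_mod_cast hq.ne_zero
  have hT : ∀ m : ZMod q, ∑ c : ZMod q, Φ c * ZMod.stdAddChar (m * c) =
      MLS.T q N α m - if m = 0 then Z else 0 := by
    intro m
    simp only [hΦ, sub_mul, sum_sub_distrib, sum_mul]
    congr 1
    · rw [sum_comm]
      unfold MLS.T
      refine sum_congr rfl fun n _ => ?_
      simp_rw [ite_mul, zero_mul]
      rw [sum_ite_eq univ (n : ZMod q)]
      simp
    · rw [← mul_sum]
      have h1 := AddChar.sum_mulShift m (ZMod.isPrimitive_stdAddChar q)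
      have h2 : ∑ c : ZMod q, ZMod.stdAddChar (m * c) = if m = 0 then (q : ℂ) else 0 := by
        rw [ZMod.card] at h1
        rw [show (if m = 0 then (q : ℂ) else 0) = ((if m = 0 then q else 0 : ℕ) : ℂ) by split_ifs <;> simp, ← h1]
        refine sum_congr rfl fun c _ => by rw [mul_comm]
      rw [h2]
      split_ifs
      · field_simp
      · simp
  have hp := MLS.parseval q Φ
  have h0 : ∑ n ∈ (univ : Finset (ZMod q)), ‖∑ a : ZMod q, Φ a * ZMod.stdAddChar (n * a)‖ ^ 2 =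
      ∑ a : (ZMod q)ˣ, ‖MLS.T q N α a‖ ^ 2 := by
    symm
    rw [← sum_filter_add_sum_filter_not univ (fun n : ZMod q => n ≠ 0)]
    have e1 : ∑ n ∈ (univ : Finset (ZMod q)).filter (fun n => ¬ n ≠ 0),
        ‖∑ a : ZMod q, Φ a * ZMod.stdAddChar (n * a)‖ ^ 2 = 0 := by
      refine sum_eq_zero fun n hn => ?_
      rw [mem_filter, not_not] at hn
      rw [hT, if_pos hn.2, hn.2]
      have : MLS.T q N α 0 = Z := by unfold MLS.T; simp [hZ]
      rw [this]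
      simp
    rw [e1, add_zero]
    refine sum_bij (fun (a : (ZMod q)ˣ) _ => (a : ZMod q)) ?_ ?_ ?_ ?_
    · intro a _
      rw [mem_filter]
      exact ⟨mem_univ _, a.ne_zero⟩
    · intro a _ b _ h
      exact Units.ext h
    · intro b hb
      rw [mem_filter] at hb
      exact ⟨Units.mk0 b hb.2, mem_univ _, rfl⟩
    · intro a _
      rw [hT, if_neg a.ne_zero, sub_zero]
  rw [h0] at hp
  rw [← MLS.sum_units, hp]
  congr 1
  -- the classes
  have h3 : ∑ a ∈ range q, (Dd f q a (s + N) - Dd f q a s) ^ 2 =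
      ∑ c : ZMod q, ‖Φ (c - (s : ZMod q))‖ ^ 2 := by
    refine sum_bij (fun a _ => (a : ZMod q)) (fun _ _ => mem_univ _) ?_ ?_ ?_
    · intro a ha b hb h
      rw [mem_range] at ha hb
      have := (ZMod.natCast_eq_natCast_iff' a b q).1 h
      rwa [Nat.mod_eq_of_lt ha, Nat.mod_eq_of_lt hb] at this
    · intro c _
      exact ⟨c.val, mem_range.2 (ZMod.val_lt c), by simp⟩
    · intro a ha
      rw [mem_range] at ha
      rw [Dd_sub]
      have e2 : Φ ((a : ZMod q) - (s : ZMod q)) =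
          ((∑ n ∈ Icc 1 N, (if (s + n) % q = a then f (s + n) else 0) - (∑ n ∈ Icc 1 N, f (s + n)) / q : ℝ) : ℂ) := by
        simp only [hΦ, hZ, hα]
        push_cast
        congr 1
        refine sum_congr rfl fun n _ => ?_
        have h4 : ((n : ZMod q) = (a : ZMod q) - (s : ZMod q)) ↔ (s + n) % q = a := by
          rw [eq_sub_iff_add_eq, ← Nat.cast_add, ZMod.natCast_eq_natCast_iff', Nat.mod_eq_of_lt ha, add_comm n s]
        by_cases h5 : (s + n) % q = a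
        · rw [if_pos (h4.2 h5), if_pos h5]
        · rw [if_neg (fun h => h5 (h4.1 h)), if_neg h5]
          simp
      rw [e2, Complex.norm_real, Real.norm_eq_abs, sq_abs]
  rw [h3]
  exact Fintype.sum_equiv (Equiv.subRight (s : ZMod q)) _ _ fun _ => rfl

lemma block (f : ℕ → ℝ) (hf : ∀ n, |f n| ≤ 1) (F s N : ℕ) :
    ∑ q ∈ (Icc 1 F).filter Nat.Prime, (q : ℝ) * ∑ a ∈ range q, (Dd f q a (s + N) - Dd f q a s) ^ 2 ≤
      6 * (N + (F : ℝ) ^ 2) * N := by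
  have h := additive_large_sieve N F (fun n => ((f (s + n) : ℝ) : ℂ))
  calc ∑ q ∈ (Icc 1 F).filter Nat.Prime, (q : ℝ) * ∑ a ∈ range q, (Dd f q a (s + N) - Dd f q a s) ^ 2
      = ∑ q ∈ (Icc 1 F).filter Nat.Prime, ∑ b ∈ (range q).filter (fun b => b.Coprime q),
        ‖∑ n ∈ Icc 1 N, ((f (s + n) : ℝ) : ℂ) * ee (n * b / q)‖ ^ 2 :=
        sum_congr rfl fun q hq => perq f (mem_filter.1 hq).2 s N
    _ ≤ ∑ q ∈ Icc 1 F, ∑ b ∈ (range q).filter (fun b => b.Coprime q),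
        ‖∑ n ∈ Icc 1 N, ((f (s + n) : ℝ) : ℂ) * ee (n * b / q)‖ ^ 2 :=
        sum_le_sum_of_subset_of_nonneg (filter_subset _ _) fun _ _ _ => by positivity
    _ ≤ _ := h
    _ ≤ 6 * (N + (F : ℝ) ^ 2) * N := by
        refine mul_le_mul_of_nonneg_left ?_ (by positivity)
        calc ∑ n ∈ Icc 1 N, ‖((f (s + n) : ℝ) : ℂ)‖ ^ 2 ≤ ∑ n ∈ Icc 1 N, (1 : ℝ) := by
              refine sum_le_sum fun n _ => ?_
              rw [Complex.norm_real, Real.norm_eq_abs]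
              exact pow_le_one₀ (abs_nonneg _) (hf _)
          _ = N := by simp

/-- the maximum over the length inside, for one function -/
lemma tele {D : ℕ → ℝ} (hD : D 0 = 0) (K : ℕ) {y : ℕ} (hy : y < 2 ^ K) :
    D y ^ 2 ≤ K * ∑ j ∈ range K, ∑ k ∈ range (2 ^ (K - j)), (D (2 ^ j * k + 2 ^ j) - D (2 ^ j * k)) ^ 2 := by
  have h1 : D y = ∑ j ∈ range K, (D (2 ^ j * (y / 2 ^ j)) - D (2 ^ (j + 1) * (y / 2 ^ (j + 1)))) := by
    rw [sum_range_sub' (fun j => D (2 ^ j * (y / 2 ^ j)))]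
    have : y / 2 ^ K = 0 := Nat.div_eq_of_lt hy
    simp [this, hD]
  rw [h1]
  refine (sq_sum_le_card_mul_sum_sq).trans ?_
  rw [card_range]
  refine mul_le_mul_of_nonneg_left (sum_le_sum fun j hj => ?_) (Nat.cast_nonneg _)
  rw [mem_range] at hj
  set m := y / 2 ^ j with hm
  have h2 : y / 2 ^ (j + 1) = m / 2 := by rw [hm, Nat.div_div_eq_div_mul, pow_succ]
  rw [h2]
  rcases Nat.even_or_odd' m with ⟨r, hr | hr⟩
  · have : 2 ^ (j + 1) * (m / 2) = 2 ^ j * m := by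
      rw [hr, Nat.mul_div_cancel_left _ (by norm_num : 0 < 2), pow_succ]; ring
    rw [this, sub_self]
    simp only [ne_eq, OfNat.ofNat_ne_zero, not_false_eq_true, zero_pow]
    exact sum_nonneg fun _ _ => sq_nonneg _
  · have h3 : m / 2 = r := by omega
    have h4 : 2 ^ (j + 1) * (m / 2) = 2 ^ j * (2 * r) := by rw [h3, pow_succ]; ring
    have h5 : 2 ^ j * m = 2 ^ j * (2 * r) + 2 ^ j := by rw [hr]; ring
    have h6 : 2 * r < 2 ^ (K - j) := by
      have : m < 2 ^ (K - j) := by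
        rw [hm, Nat.div_lt_iff_lt_mul (by positivity), ← pow_add]
        rwa [Nat.sub_add_cancel hj.le]
      omega
    rw [h4, h5]
    exact single_le_sum (f := fun k => (D (2 ^ j * k + 2 ^ j) - D (2 ^ j * k)) ^ 2) (fun _ _ => sq_nonneg _)
      (mem_range.2 h6)

/-- **Large sieve for the classes modulo primes with arbitrary lengths.** -/
theorem maxLS (f : ℕ → ℝ) (hf : ∀ n, |f n| ≤ 1) (F K : ℕ) (y : ℕ → ℕ → ℕ) (hy : ∀ q a, y q a < 2 ^ K) :
    ∑ q ∈ (Icc 1 F).filter Nat.Prime, (q : ℝ) * ∑ a ∈ range q, (Dd f q a (y q a)) ^ 2 ≤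
      6 * (K : ℝ) ^ 2 * 2 ^ K * (2 ^ K + (F : ℝ) ^ 2) := by
  have h1 : ∑ q ∈ (Icc 1 F).filter Nat.Prime, (q : ℝ) * ∑ a ∈ range q, (Dd f q a (y q a)) ^ 2 ≤
      ∑ q ∈ (Icc 1 F).filter Nat.Prime, (q : ℝ) * ∑ a ∈ range q, (K * ∑ j ∈ range K, ∑ k ∈ range (2 ^ (K - j)),
        (Dd f q a (2 ^ j * k + 2 ^ j) - Dd f q a (2 ^ j * k)) ^ 2) :=
    sum_le_sum fun q _ => mul_le_mul_of_nonneg_left
      (sum_le_sum fun a _ => tele (Dd_zero f q a) K (hy q a)) (Nat.cast_nonneg _)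
  refine h1.trans ?_
  have h2 : ∑ q ∈ (Icc 1 F).filter Nat.Prime, (q : ℝ) * ∑ a ∈ range q, ((K : ℝ) * ∑ j ∈ range K,
        ∑ k ∈ range (2 ^ (K - j)), (Dd f q a (2 ^ j * k + 2 ^ j) - Dd f q a (2 ^ j * k)) ^ 2) =
      K * ∑ j ∈ range K, ∑ k ∈ range (2 ^ (K - j)), ∑ q ∈ (Icc 1 F).filter Nat.Prime,
        (q : ℝ) * ∑ a ∈ range q, (Dd f q a (2 ^ j * k + 2 ^ j) - Dd f q a (2 ^ j * k)) ^ 2 := by
    have e1 : ∀ q ∈ (Icc 1 F).filter Nat.Prime, (q : ℝ) * ∑ a ∈ range q, ((K : ℝ) * ∑ j ∈ range K,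
        ∑ k ∈ range (2 ^ (K - j)), (Dd f q a (2 ^ j * k + 2 ^ j) - Dd f q a (2 ^ j * k)) ^ 2) =
        K * ∑ j ∈ range K, ∑ k ∈ range (2 ^ (K - j)),
          ((q : ℝ) * ∑ a ∈ range q, (Dd f q a (2 ^ j * k + 2 ^ j) - Dd f q a (2 ^ j * k)) ^ 2) := by
      intro q _
      rw [← mul_sum, sum_comm]
      have e2 : ∀ j ∈ range K, ∑ a ∈ range q, ∑ k ∈ range (2 ^ (K - j)),
          (Dd f q a (2 ^ j * k + 2 ^ j) - Dd f q a (2 ^ j * k)) ^ 2 = ∑ k ∈ range (2 ^ (K - j)), ∑ a ∈ range q,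
          (Dd f q a (2 ^ j * k + 2 ^ j) - Dd f q a (2 ^ j * k)) ^ 2 := fun j _ => sum_comm
      rw [sum_congr rfl e2]
      simp only [← mul_sum]
      ring
    rw [sum_congr rfl e1, ← mul_sum, sum_comm]
    refine congrArg _ (sum_congr rfl fun j _ => sum_comm)
  rw [h2]
  have h3 : ∀ j ∈ range K, ∑ k ∈ range (2 ^ (K - j)), ∑ q ∈ (Icc 1 F).filter Nat.Prime,
        (q : ℝ) * ∑ a ∈ range q, (Dd f q a (2 ^ j * k + 2 ^ j) - Dd f q a (2 ^ j * k)) ^ 2 ≤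
      6 * 2 ^ K * (2 ^ K + (F : ℝ) ^ 2) := by
    intro j hj
    rw [mem_range] at hj
    calc ∑ k ∈ range (2 ^ (K - j)), ∑ q ∈ (Icc 1 F).filter Nat.Prime,
        (q : ℝ) * ∑ a ∈ range q, (Dd f q a (2 ^ j * k + 2 ^ j) - Dd f q a (2 ^ j * k)) ^ 2
        ≤ ∑ k ∈ range (2 ^ (K - j)), 6 * (((2 ^ j : ℕ) : ℝ) + (F : ℝ) ^ 2) * ((2 ^ j : ℕ) : ℝ) :=
          sum_le_sum fun k _ => block f hf F (2 ^ j * k) (2 ^ j)
      _ = 6 * 2 ^ K * (2 ^ j + (F : ℝ) ^ 2) := by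
          rw [sum_const, card_range, nsmul_eq_mul]
          push_cast
          have : (2 : ℝ) ^ K = 2 ^ (K - j) * 2 ^ j := by rw [← pow_add, Nat.sub_add_cancel hj.le]
          rw [this]
          ring
      _ ≤ _ := by
          refine mul_le_mul_of_nonneg_left ?_ (by positivity)
          have : (2 : ℝ) ^ j ≤ 2 ^ K := pow_le_pow_right₀ (by norm_num) hj.le
          linarith
  calc (K : ℝ) * ∑ j ∈ range K, ∑ k ∈ range (2 ^ (K - j)), ∑ q ∈ (Icc 1 F).filter Nat.Prime,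
        (q : ℝ) * ∑ a ∈ range q, (Dd f q a (2 ^ j * k + 2 ^ j) - Dd f q a (2 ^ j * k)) ^ 2
      ≤ K * ∑ j ∈ range K, 6 * 2 ^ K * (2 ^ K + (F : ℝ) ^ 2) :=
        mul_le_mul_of_nonneg_left (sum_le_sum h3) (Nat.cast_nonneg _)
    _ = _ := by
        rw [sum_const, card_range, nsmul_eq_mul]
        ring

end Pool.Agent.Run7.h129.MC
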