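import Mathlib
import Pool.Agent.Run7.h129.MC.LS

/-!
# Primes `q` for which the mean square over the classes is large: a power saving
-/

set_option autoImplicit false

open Finset

namespace Pool.Agent.Run7.h129.MC

/-- the indicator function of the primes -/
noncomputable def pr (n : ℕ) : ℝ := if n.Prime then 1 else 0

lemma pr_nonneg (n : ℕ) : 0 ≤ pr n := by unfold pr; split_ifs <;> norm_num

lemma pr_le (n : ℕ) : pr n ≤ 1 := by unfold pr; split_ifs <;> norm_num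

lemma pr_abs (n : ℕ) : |pr n| ≤ 1 := by rw [abs_of_nonneg (pr_nonneg n)]; exact pr_le n

lemma sum_pr_le (y : ℕ) : ∑ n ∈ Ioc 0 y, pr n ≤ y := by
  calc ∑ n ∈ Ioc 0 y, pr n ≤ ∑ n ∈ Ioc 0 y, (1 : ℝ) := sum_le_sum fun n _ => pr_le n
    _ = y := by simp

lemma sum_pr_nonneg (y : ℕ) : 0 ≤ ∑ n ∈ Ioc 0 y, pr n := sum_nonneg fun n _ => pr_nonneg n

lemma class_card (q a y : ℕ) : ((Ioc 0 y).filter (fun n => n % q = a)).card ≤ y / q + 1 := by
  have h := card_le_card_of_injOn (s := (Ioc 0 y).filter (fun n => n % q = a)) (t := range (y / q + 1))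
    (fun n => n / q) (by
      intro n hn
      have hn' := (mem_filter.1 (mem_coe.1 hn))
      rw [mem_coe, mem_range]
      exact Nat.lt_succ_of_le (Nat.div_le_div_right (mem_Ioc.1 hn'.1).2)) (by
      intro m hm n hn h
      have hm' := (mem_filter.1 (mem_coe.1 hm)).2
      have hn' := (mem_filter.1 (mem_coe.1 hn)).2
      simp only at h
      rw [← Nat.mod_add_div m q, ← Nat.mod_add_div n q, hm', hn', h])
  rwa [card_range] at h

lemma triv {q x : ℕ} (hq : 1 ≤ q) (y : ℕ → ℕ) (hy : ∀ a, y a ≤ x) :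
    ∑ a ∈ range q, (Dd pr q a (y a)) ^ 2 ≤ 4 * (x : ℝ) ^ 2 / q + 2 * x := by
  have hq0 : (0 : ℝ) < q := by exact_mod_cast hq
  set Z : ℕ → ℕ → ℝ := fun a z => ∑ n ∈ Ioc 0 z, (if n % q = a then pr n else 0) with hZ
  have hZ0 : ∀ a z, 0 ≤ Z a z := fun a z => sum_nonneg fun n _ => by split_ifs; exacts [pr_nonneg n, le_rfl]
  have hZm : ∀ a, Z a (y a) ≤ Z a x := fun a => sum_le_sum_of_subset_of_nonneg
    (Ioc_subset_Ioc le_rfl (hy a)) fun n _ _ => by split_ifs; exacts [pr_nonneg n, le_rfl]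
  have hZ1 : ∀ a, Z a x ≤ x / q + 1 := by
    intro a
    calc Z a x ≤ ∑ n ∈ Ioc 0 x, (if n % q = a then (1 : ℝ) else 0) :=
          sum_le_sum fun n _ => by split_ifs; exacts [pr_le n, le_rfl]
      _ = (((Ioc 0 x).filter (fun n => n % q = a)).card : ℝ) := by rw [sum_ite, sum_const_zero, add_zero]; simp
      _ ≤ ((x / q + 1 : ℕ) : ℝ) := by exact_mod_cast class_card q a x
      _ ≤ x / q + 1 := by
          push_cast
          have := @Nat.cast_div_le ℝ _ _ _ x q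
          linarith
  have hZs : ∑ a ∈ range q, Z a x ≤ x := by
    simp only [hZ]
    rw [sum_comm]
    calc ∑ n ∈ Ioc 0 x, ∑ a ∈ range q, (if n % q = a then pr n else 0) = ∑ n ∈ Ioc 0 x, pr n := by
          refine sum_congr rfl fun n _ => ?_
          rw [sum_ite_eq, if_pos (mem_range.2 (Nat.mod_lt _ hq))]
      _ ≤ x := sum_pr_le x
  have h1 : ∀ a ∈ range q, (Dd pr q a (y a)) ^ 2 ≤ 2 * ((x / q + 1) * Z a x) + 2 * ((x : ℝ) / q) ^ 2 := by
    intro a _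
    have e1 : Dd pr q a (y a) = Z a (y a) - (∑ n ∈ Ioc 0 (y a), pr n) / q := rfl
    have e2 : Z a (y a) ^ 2 ≤ (x / q + 1) * Z a x := by
      rw [sq]
      exact mul_le_mul ((hZm a).trans (hZ1 a)) (hZm a) (hZ0 _ _) (by positivity)
    have e3 : ((∑ n ∈ Ioc 0 (y a), pr n) / q) ^ 2 ≤ ((x : ℝ) / q) ^ 2 := by
      have : ∑ n ∈ Ioc 0 (y a), pr n ≤ x := (sum_pr_le _).trans (by exact_mod_cast hy a)
      exact pow_le_pow_left₀ (div_nonneg (sum_pr_nonneg _) hq0.le) (by gcongr) 2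
    rw [e1]
    nlinarith [sq_nonneg (Z a (y a) + (∑ n ∈ Ioc 0 (y a), pr n) / q)]
  calc ∑ a ∈ range q, (Dd pr q a (y a)) ^ 2
      ≤ ∑ a ∈ range q, (2 * ((x / q + 1) * Z a x) + 2 * ((x : ℝ) / q) ^ 2) := sum_le_sum h1
    _ = 2 * ((x / q + 1) * ∑ a ∈ range q, Z a x) + q * (2 * ((x : ℝ) / q) ^ 2) := by
        rw [sum_add_distrib, sum_const, card_range, nsmul_eq_mul]
        simp only [← mul_sum]
    _ ≤ 2 * ((x / q + 1) * x) + q * (2 * ((x : ℝ) / q) ^ 2) := by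
        have : 0 ≤ (x : ℝ) / q + 1 := by positivity
        nlinarith [mul_le_mul_of_nonneg_left hZs this]
    _ = 4 * (x : ℝ) ^ 2 / q + 2 * x := by field_simp; ring

/-- the mean square over the classes modulo `q` is large -/
def Bad (ε : ℝ) (q : ℕ) : Prop := q.Prime ∧ ∃ x : ℕ, 1 ≤ x ∧ ∃ y : ℕ → ℕ, (∀ a, y a ≤ x) ∧
  8 * (x : ℝ) ^ (1 + ε) * (1 + x / (q : ℝ) ^ 2) < ∑ a ∈ range q, (Dd pr q a (y a)) ^ 2

open Classical in
/-- the bad primes in `(F^(1-δ), F]` at the scale `2^K` -/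
noncomputable def bK (ε δ : ℝ) (F K : ℕ) : Finset ℕ :=
  (Icc 1 F).filter (fun q => q.Prime ∧ (F : ℝ) ^ (1 - δ) ≤ q ∧ ∃ y : ℕ → ℕ, (∀ a, y a < 2 ^ K) ∧
    ((2 : ℝ) ^ K) ^ (1 + ε) * (1 + 2 ^ K / (q : ℝ) ^ 2) < ∑ a ∈ range q, (Dd pr q a (y a)) ^ 2)

lemma bK_card {ε δ : ℝ} (hδ : 0 ≤ δ) {F : ℕ} (hF : 1 ≤ F) (K : ℕ) :
    ((bK ε δ F K).card : ℝ) ≤ 6 * (K : ℝ) ^ 2 * (F : ℝ) ^ (1 + δ) * ((2 : ℝ) ^ K) ^ (-ε) := by
  classical
  have hF0 : (0 : ℝ) < F := by exact_mod_cast hF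
  have hF1 : (1 : ℝ) ≤ F := by exact_mod_cast hF
  set X : ℝ := (2 : ℝ) ^ K with hX
  have hX0 : 0 < X := by positivity
  have hex : ∀ q : ℕ, ∃ y : ℕ → ℕ, (∀ a, y a < 2 ^ K) ∧ (q ∈ bK ε δ F K →
      X ^ (1 + ε) * (1 + X / (q : ℝ) ^ 2) < ∑ a ∈ range q, (Dd pr q a (y a)) ^ 2) := by
    intro q
    by_cases h : q ∈ bK ε δ F K
    · obtain ⟨y, h1, h2⟩ := (mem_filter.1 h).2.2.2
      exact ⟨y, h1, fun _ => h2⟩
    · exact ⟨fun _ => 0, fun _ => by positivity, fun h' => absurd h' h⟩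
  choose y hy hy2 using hex
  have h1 := maxLS pr pr_abs F K y hy
  have h2 : ∑ q ∈ bK ε δ F K, X ^ (1 + ε) * (X + (F : ℝ) ^ 2) * (F : ℝ) ^ (-(1 + δ)) ≤
      ∑ q ∈ (Icc 1 F).filter Nat.Prime, (q : ℝ) * ∑ a ∈ range q, (Dd pr q a (y q a)) ^ 2 := by
    refine (sum_le_sum fun q hq => ?_).trans (sum_le_sum_of_subset_of_nonneg
      (s := bK ε δ F K) (f := fun q : ℕ => (q : ℝ) * ∑ a ∈ range q, (Dd pr q a (y q a)) ^ 2) ?_
      fun q _ _ => mul_nonneg (Nat.cast_nonneg _) (sum_nonneg fun _ _ => sq_nonneg _))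
    · obtain ⟨h3, h4, h5, -⟩ := mem_filter.1 hq
      have hq0 : (0 : ℝ) < q := by exact_mod_cast (mem_Icc.1 h3).1
      have hqF : (q : ℝ) ≤ F := by exact_mod_cast (mem_Icc.1 h3).2
      refine le_trans ?_ (mul_le_mul_of_nonneg_left (hy2 q hq).le hq0.le)
      have e1 : (q : ℝ) * (X ^ (1 + ε) * (1 + X / (q : ℝ) ^ 2)) = X ^ (1 + ε) * (q + X / q) := by
        field_simp
      rw [e1, mul_assoc]
      refine mul_le_mul_of_nonneg_left ?_ (by positivity)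
      rw [add_mul, add_comm]
      refine add_le_add ?_ ?_
      · have : (F : ℝ) ^ 2 * (F : ℝ) ^ (-(1 + δ)) = (F : ℝ) ^ (1 - δ) := by
          rw [← Real.rpow_natCast, ← Real.rpow_add hF0]
          congr 1
          push_cast
          ring
        rw [this]
        exact h5
      · rw [div_eq_mul_inv]
        refine mul_le_mul_of_nonneg_left ?_ hX0.le
        calc (F : ℝ) ^ (-(1 + δ)) ≤ (F : ℝ) ^ (-1 : ℝ) := Real.rpow_le_rpow_of_exponent_le hF1 (by linarith)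
          _ = (F : ℝ)⁻¹ := Real.rpow_neg_one _
          _ ≤ (q : ℝ)⁻¹ := inv_anti₀ hq0 hqF
    · intro q hq
      obtain ⟨h3, h4, -, -⟩ := mem_filter.1 hq
      exact mem_filter.2 ⟨h3, h4⟩
  rw [sum_const, nsmul_eq_mul] at h2
  have h3 := h2.trans h1
  have e2 : X ^ (1 + ε) = X * X ^ ε := by rw [Real.rpow_add hX0, Real.rpow_one]
  have e3 : (F : ℝ) ^ (1 + δ) * (F : ℝ) ^ (-(1 + δ)) = 1 := by
    rw [← Real.rpow_add hF0]; simp
  have e4 : X ^ ε * X ^ (-ε) = 1 := by rw [← Real.rpow_add hX0]; simp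
  have hS : 0 < X * (X + (F : ℝ) ^ 2) := by positivity
  have h4 : ((bK ε δ F K).card : ℝ) * (X * (X + (F : ℝ) ^ 2)) ≤
      6 * (K : ℝ) ^ 2 * (F : ℝ) ^ (1 + δ) * X ^ (-ε) * (X * (X + (F : ℝ) ^ 2)) := by
    have h5 := mul_le_mul_of_nonneg_right h3 (by positivity : 0 ≤ X ^ (-ε) * (F : ℝ) ^ (1 + δ))
    calc ((bK ε δ F K).card : ℝ) * (X * (X + (F : ℝ) ^ 2))
        = ((bK ε δ F K).card : ℝ) * (X * (X + (F : ℝ) ^ 2)) * (X ^ ε * X ^ (-ε)) *
          ((F : ℝ) ^ (1 + δ) * (F : ℝ) ^ (-(1 + δ))) := by rw [e3, e4]; ring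
      _ = ((bK ε δ F K).card : ℝ) * (X ^ (1 + ε) * (X + (F : ℝ) ^ 2) * (F : ℝ) ^ (-(1 + δ))) *
          (X ^ (-ε) * (F : ℝ) ^ (1 + δ)) := by rw [e2]; ring
      _ ≤ _ := h5
      _ = _ := by ring
  exact le_of_mul_le_mul_right h4 hS

/-- **Power saving for the number of the bad primes.** -/
theorem bad_card {ε : ℝ} (hε : 0 < ε) (hε1 : ε ≤ 1) : ∃ C : ℝ, 0 < C ∧ ∀ F : ℕ, 1 ≤ F →
    ({q : ℕ | q ≤ F ∧ Bad ε q}.ncard : ℝ) ≤ C * (F : ℝ) ^ (1 - ε / 4) := by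
  classical
  set s : ℝ := ε / 12 with hs
  have hs0 : 0 < s := by positivity
  set c₁ : ℝ := (1 + 2 / ε) * (1 + 1 / s) with hc₁
  have hc₁0 : 1 ≤ c₁ := by
    have e1 : 0 ≤ 2 / ε := by positivity
    have e2 : 0 ≤ 1 / s := by positivity
    nlinarith [mul_nonneg e1 e2]
  refine ⟨2 + 12 * c₁ ^ 3, by positivity, fun F hF => ?_⟩
  have hF0 : (0 : ℝ) < F := by exact_mod_cast hF
  have hF1 : (1 : ℝ) ≤ F := by exact_mod_cast hF
  set δ : ℝ := ε / 4 with hδ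
  set R : ℝ := c₁ * (F : ℝ) ^ s with hR
  have hR1 : 1 ≤ R := by
    have : (1 : ℝ) ≤ (F : ℝ) ^ s := Real.one_le_rpow hF1 hs0.le
    nlinarith
  -- covering
  have hcov : {q : ℕ | q ≤ F ∧ Bad ε q} ⊆
      ((Icc 1 ⌊(F : ℝ) ^ (1 - δ)⌋₊ ∪ (range (⌊R⌋₊ + 1)).biUnion (fun K => (bK ε δ F K).filter (fun q => q < 2 ^ K)) : Finset ℕ) : Set ℕ) := by
    rintro q ⟨hqF, hq, x, hx, y, hy, hbad⟩
    rw [mem_coe, mem_union]
    by_cases hsm : (q : ℝ) ≤ (F : ℝ) ^ (1 - δ)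
    · exact Or.inl (mem_Icc.2 ⟨hq.one_le, Nat.le_floor hsm⟩)
    · push Not at hsm
      right
      have hq0 : (0 : ℝ) < q := by exact_mod_cast hq.pos
      have hq1 : (1 : ℝ) ≤ q := by exact_mod_cast hq.one_le
      have hx0 : (0 : ℝ) < x := by exact_mod_cast hx
      have hx1 : (1 : ℝ) ≤ x := by exact_mod_cast hx
      have ht := triv hq.one_le y hy
      have hxe : (x : ℝ) ≤ (x : ℝ) ^ (1 + ε) := by
        conv_lhs => rw [← Real.rpow_one (x : ℝ)]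
        exact Real.rpow_le_rpow_of_exponent_le hx1 (by linarith)
      -- q < x
      have hqx : q < x := by
        by_contra hcon
        push Not at hcon
        have hxq : (x : ℝ) ≤ q := by exact_mod_cast hcon
        have e1 : 4 * (x : ℝ) ^ 2 / q ≤ 4 * x := by
          rw [div_le_iff₀ hq0]
          nlinarith
        have e2 : (x : ℝ) ^ (1 + ε) ≤ (x : ℝ) ^ (1 + ε) * (1 + x / (q : ℝ) ^ 2) :=
          le_mul_of_one_le_right (by positivity) (by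
            have : 0 ≤ (x : ℝ) / (q : ℝ) ^ 2 := by positivity
            linarith)
        nlinarith
      -- x^ε < q
      have hxε : (x : ℝ) ^ ε < q := by
        by_contra hcon
        push Not at hcon
        have e1 : (x : ℝ) ^ 2 / q ≤ (x : ℝ) ^ (1 + ε) * (x / (q : ℝ) ^ 2) := by
          rw [Real.rpow_add hx0, Real.rpow_one, mul_div_assoc', div_le_div_iff₀ hq0 (by positivity)]
          have : (x : ℝ) ^ 2 * q * q ≤ (x : ℝ) ^ 2 * (x : ℝ) ^ ε * q := by gcongr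
          nlinarith
        have e3 : 4 * (x : ℝ) ^ 2 / q = 4 * ((x : ℝ) ^ 2 / q) := by ring
        have e4 : 8 * (x : ℝ) ^ (1 + ε) * (1 + x / (q : ℝ) ^ 2) =
          8 * (x : ℝ) ^ (1 + ε) + 8 * ((x : ℝ) ^ (1 + ε) * (x / (q : ℝ) ^ 2)) := by ring
        have e5 : 0 ≤ (x : ℝ) ^ 2 / q := by positivity
        rw [e3] at ht
        rw [e4] at hbad
        linarith
      -- the scale
      set K := Nat.log 2 x + 1 with hK
      have hxK : x < 2 ^ K := Nat.lt_pow_succ_log_self (by norm_num) x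
      have hKx : 2 ^ K ≤ 2 * x := by
        rw [hK, pow_succ, mul_comm]
        exact Nat.mul_le_mul_left 2 (Nat.pow_log_le_self 2 (by omega))
      have hKxR : (2 : ℝ) ^ K ≤ 2 * x := by exact_mod_cast hKx
      rw [mem_biUnion]
      refine ⟨K, ?_, ?_⟩
      · rw [mem_range]
        refine Nat.lt_succ_of_le (Nat.le_floor ?_)
        have e1 : (x : ℝ) ≤ (F : ℝ) ^ (1 / ε) := by
          have : ((x : ℝ) ^ ε) ^ (1 / ε) ≤ (q : ℝ) ^ (1 / ε) := Real.rpow_le_rpow (by positivity) hxε.le (by positivity)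
          rw [← Real.rpow_mul hx0.le, mul_one_div_cancel hε.ne', Real.rpow_one] at this
          exact this.trans (Real.rpow_le_rpow hq0.le (by exact_mod_cast hqF) (by positivity))
        have e2 : (K : ℝ) * Real.log 2 ≤ Real.log 2 + 1 / ε * Real.log F := by
          have := Real.log_le_log (by positivity) (hKxR.trans (mul_le_mul_of_nonneg_left e1 (by norm_num)))
          rw [Real.log_pow, Real.log_mul (by norm_num) (by positivity), Real.log_rpow hF0] at this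
          exact this
        have hl2 : (1 / 2 : ℝ) < Real.log 2 := by have := Real.log_two_gt_d9; linarith
        have hl : 0 ≤ Real.log F := Real.log_nonneg hF1
        have e3 : (K : ℝ) ≤ 1 + 2 / ε * Real.log F := by
          have h5 : (K : ℝ) ≤ 1 + 1 / ε * Real.log F / Real.log 2 := by
            rw [← sub_le_iff_le_add', le_div_iff₀ (by linarith)]
            linarith
          have h6 : 1 / ε * Real.log F / Real.log 2 ≤ 2 / ε * Real.log F := by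
            rw [div_le_iff₀ (by linarith)]
            have : 0 ≤ 1 / ε * Real.log F := by positivity
            calc 1 / ε * Real.log F = 1 / ε * Real.log F * 1 := (mul_one _).symm
              _ ≤ 1 / ε * Real.log F * (2 * Real.log 2) := mul_le_mul_of_nonneg_left (by linarith) this
              _ = _ := by ring
          linarith
        have e4 : Real.log F ≤ (F : ℝ) ^ s / s := Real.log_le_rpow_div hF0.le hs0
        have e5 : (1 : ℝ) ≤ (F : ℝ) ^ s := Real.one_le_rpow hF1 hs0.le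
        have e6 : (F : ℝ) ^ s / s = 1 / s * (F : ℝ) ^ s := by ring
        have e7 : 0 ≤ 2 / ε := by positivity
        calc (K : ℝ) ≤ 1 + 2 / ε * Real.log F := e3
          _ ≤ (1 + 2 / ε) * (1 + Real.log F) := by nlinarith
          _ ≤ (1 + 2 / ε) * ((F : ℝ) ^ s + 1 / s * (F : ℝ) ^ s) :=
              mul_le_mul_of_nonneg_left (by linarith) (by linarith)
          _ = R := by rw [hR, hc₁]; ring
      · rw [mem_filter]
        refine ⟨?_, hqx.trans hxK⟩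
        unfold bK
        rw [mem_filter, mem_Icc]
        refine ⟨⟨hq.one_le, hqF⟩, hq, hsm.le, y, fun a => (hy a).trans_lt hxK, lt_of_le_of_lt ?_ hbad⟩
        have e1 : ((2 : ℝ) ^ K) ^ (1 + ε) ≤ 4 * (x : ℝ) ^ (1 + ε) := by
          calc ((2 : ℝ) ^ K) ^ (1 + ε) ≤ (2 * (x : ℝ)) ^ (1 + ε) :=
                Real.rpow_le_rpow (by positivity) hKxR (by linarith)
            _ = (2 : ℝ) ^ (1 + ε) * (x : ℝ) ^ (1 + ε) := Real.mul_rpow (by norm_num) hx0.le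
            _ ≤ 4 * (x : ℝ) ^ (1 + ε) := by
                refine mul_le_mul_of_nonneg_right ?_ (by positivity)
                calc (2 : ℝ) ^ (1 + ε) ≤ (2 : ℝ) ^ (2 : ℝ) :=
                      Real.rpow_le_rpow_of_exponent_le (by norm_num) (by linarith)
                  _ = 4 := by norm_num
        have e2 : 1 + (2 : ℝ) ^ K / (q : ℝ) ^ 2 ≤ 2 * (1 + x / (q : ℝ) ^ 2) := by
          have : (2 : ℝ) ^ K / (q : ℝ) ^ 2 ≤ 2 * x / (q : ℝ) ^ 2 := by gcongr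
          have e3 : 2 * (x : ℝ) / (q : ℝ) ^ 2 = 2 * (x / (q : ℝ) ^ 2) := by ring
          linarith
        calc ((2 : ℝ) ^ K) ^ (1 + ε) * (1 + 2 ^ K / (q : ℝ) ^ 2)
            ≤ (4 * (x : ℝ) ^ (1 + ε)) * (2 * (1 + x / (q : ℝ) ^ 2)) :=
              mul_le_mul e1 e2 (by positivity) (by positivity)
          _ = _ := by ring
  have h1 := Set.ncard_le_ncard hcov (Finset.finite_toSet _)
  rw [Set.ncard_coe_finset] at h1
  have h2 : ({q : ℕ | q ≤ F ∧ Bad ε q}.ncard : ℝ) ≤ (F : ℝ) ^ (1 - δ) +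
      ∑ K ∈ range (⌊R⌋₊ + 1), ((((bK ε δ F K).filter (fun q => q < 2 ^ K)).card : ℕ) : ℝ) := by
    calc ({q : ℕ | q ≤ F ∧ Bad ε q}.ncard : ℝ)
        ≤ (((Icc 1 ⌊(F : ℝ) ^ (1 - δ)⌋₊ ∪ (range (⌊R⌋₊ + 1)).biUnion
          (fun K => (bK ε δ F K).filter (fun q => q < 2 ^ K)) : Finset ℕ).card : ℕ) : ℝ) := by exact_mod_cast h1
      _ ≤ (((Icc 1 ⌊(F : ℝ) ^ (1 - δ)⌋₊).card + ∑ K ∈ range (⌊R⌋₊ + 1),
          ((bK ε δ F K).filter (fun q => q < 2 ^ K)).card : ℕ) : ℝ) := by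
          exact_mod_cast (card_union_le _ _).trans (Nat.add_le_add_left card_biUnion_le _)
      _ ≤ _ := by
          push_cast
          have : (((Icc 1 ⌊(F : ℝ) ^ (1 - δ)⌋₊).card : ℕ) : ℝ) ≤ (F : ℝ) ^ (1 - δ) := by
            rw [Nat.card_Icc, Nat.add_sub_cancel]
            exact Nat.floor_le (by positivity)
          linarith
  have h3 : ∀ K ∈ range (⌊R⌋₊ + 1), ((((bK ε δ F K).filter (fun q => q < 2 ^ K)).card : ℕ) : ℝ) ≤
      6 * R ^ 2 * (F : ℝ) ^ (1 - ε / 2) := by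
    intro K hK
    rw [mem_range] at hK
    have hKR : (K : ℝ) ≤ R := (Nat.cast_le.2 (Nat.le_of_lt_succ hK)).trans (Nat.floor_le (by linarith))
    rcases Finset.eq_empty_or_nonempty ((bK ε δ F K).filter (fun q => q < 2 ^ K)) with he | ⟨q, hq⟩
    · rw [he]
      simp only [card_empty, Nat.cast_zero]
      positivity
    · obtain ⟨hq1, hq2⟩ := mem_filter.1 hq
      obtain ⟨hq3, hq4, hq5, -⟩ := mem_filter.1 hq1
      have hX : (F : ℝ) ^ (1 - δ) ≤ (2 : ℝ) ^ K := hq5.trans (by exact_mod_cast hq2.le)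
      have hc : ((((bK ε δ F K).filter (fun q => q < 2 ^ K)).card : ℕ) : ℝ) ≤ ((bK ε δ F K).card : ℝ) := by
        exact_mod_cast card_le_card (filter_subset _ _)
      refine hc.trans ((bK_card (by positivity) hF K).trans ?_)
      have e1 : ((2 : ℝ) ^ K) ^ (-ε) ≤ ((F : ℝ) ^ (1 - δ)) ^ (-ε) :=
        Real.rpow_le_rpow_of_nonpos (by positivity) hX (by linarith)
      calc 6 * (K : ℝ) ^ 2 * (F : ℝ) ^ (1 + δ) * ((2 : ℝ) ^ K) ^ (-ε)
          ≤ 6 * R ^ 2 * (F : ℝ) ^ (1 + δ) * ((F : ℝ) ^ (1 - δ)) ^ (-ε) := by gcongr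
        _ = 6 * R ^ 2 * ((F : ℝ) ^ (1 + δ) * (F : ℝ) ^ ((1 - δ) * (-ε))) := by
            rw [← Real.rpow_mul hF0.le]; ring
        _ = 6 * R ^ 2 * (F : ℝ) ^ (1 + δ + (1 - δ) * (-ε)) := by rw [← Real.rpow_add hF0]
        _ ≤ _ := by
            refine mul_le_mul_of_nonneg_left (Real.rpow_le_rpow_of_exponent_le hF1 ?_) (by positivity)
            rw [hδ]
            nlinarith
  have h4 : ∑ K ∈ range (⌊R⌋₊ + 1), ((((bK ε δ F K).filter (fun q => q < 2 ^ K)).card : ℕ) : ℝ) ≤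
      12 * c₁ ^ 3 * (F : ℝ) ^ (1 - ε / 4) := by
    refine (sum_le_sum h3).trans ?_
    rw [sum_const, card_range, nsmul_eq_mul]
    push_cast
    have e1 : (⌊R⌋₊ : ℝ) + 1 ≤ 2 * R := by
      have := Nat.floor_le (by linarith : 0 ≤ R)
      linarith
    calc ((⌊R⌋₊ : ℝ) + 1) * (6 * R ^ 2 * (F : ℝ) ^ (1 - ε / 2))
        ≤ (2 * R) * (6 * R ^ 2 * (F : ℝ) ^ (1 - ε / 2)) := mul_le_mul_of_nonneg_right e1 (by positivity)
      _ = 12 * c₁ ^ 3 * (((F : ℝ) ^ s) ^ 3 * (F : ℝ) ^ (1 - ε / 2)) := by rw [hR]; ring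
      _ = 12 * c₁ ^ 3 * (F : ℝ) ^ (1 - ε / 4) := by
          rw [← Real.rpow_natCast ((F : ℝ) ^ s), ← Real.rpow_mul hF0.le, ← Real.rpow_add hF0]
          congr 2
          rw [hs]
          push_cast
          ring
  calc ({q : ℕ | q ≤ F ∧ Bad ε q}.ncard : ℝ) ≤ _ := h2
    _ ≤ (F : ℝ) ^ (1 - ε / 4) + 12 * c₁ ^ 3 * (F : ℝ) ^ (1 - ε / 4) := add_le_add le_rfl h4
    _ ≤ (2 + 12 * c₁ ^ 3) * (F : ℝ) ^ (1 - ε / 4) := by
        have : 0 ≤ (F : ℝ) ^ (1 - ε / 4) := by positivity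
        nlinarith

end Pool.Agent.Run7.h129.MC
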