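import Mathlib

/-!
# From the theorem of Bombieri and Vinogradov to the number of the bad moduli, for all lengths at once
-/

set_option autoImplicit false

open Finset Filter

namespace Pool.Agent.Run7.h129.MC

/-- `π(x)` -/
def piA (x : ℕ) : ℕ := ((Icc 1 x).filter (fun p : ℕ => p.Prime)).card

/-- `π(x; q, a)` -/
def piC (x q a : ℕ) : ℕ := ((Icc 1 x).filter (fun p : ℕ => p.Prime ∧ p ≡ a [MOD q])).card

/-- the error term -/
noncomputable def Er (x q a : ℕ) : ℝ := |(piC x q a : ℝ) - (piA x : ℝ) / (Nat.totient q : ℝ)|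

noncomputable def tot (x Q : ℕ) (c : ℕ → ℕ) : ℝ :=
  ∑ q ∈ (Icc 1 Q).filter (fun q => (c q).Coprime q), Er x q (c q)

/-- the theorem of Bombieri and Vinogradov -/
def BVHyp : Prop := ∀ U : ℕ, ∃ B N₀ : ℕ, ∀ N : ℕ, N₀ ≤ N → ∀ Q : ℕ, (Q : ℝ) ^ 2 * Real.log N ^ B < N →
  ∀ c : ℕ → ℕ, tot N Q c ≤ N / Real.log N ^ U

open Classical in
lemma bvcount {x Q : ℕ} {R T : ℝ} (h : ∀ c : ℕ → ℕ, tot x Q c ≤ R) :
    (((Icc 1 Q).filter (fun q => ∃ a : ℕ, a.Coprime q ∧ T < Er x q a)).card : ℝ) * T ≤ R := by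
  have hex : ∀ q : ℕ, ∃ a : ℕ, (∃ a : ℕ, a.Coprime q ∧ T < Er x q a) → (a.Coprime q ∧ T < Er x q a) := by
    intro q
    by_cases hq : ∃ a : ℕ, a.Coprime q ∧ T < Er x q a
    · obtain ⟨a, ha⟩ := hq
      exact ⟨a, fun _ => ha⟩
    · exact ⟨0, fun h => absurd h hq⟩
  choose c hc using hex
  refine le_trans ?_ (h c)
  unfold tot
  rw [← nsmul_eq_mul, ← sum_const]
  refine (sum_le_sum fun q hq => (hc q (mem_filter.1 hq).2).2.le).trans ?_
  refine sum_le_sum_of_subset_of_nonneg ?_ fun _ _ _ => abs_nonneg _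
  intro q hq
  rw [mem_filter] at hq ⊢
  exact ⟨hq.1, (hc q hq.2).1⟩

lemma class_short {q : ℕ} (hq : 1 ≤ q) (a : ℕ) {g x : ℕ} (hgx : g ≤ x) :
    (((Ioc g x).filter (fun n => n ≡ a [MOD q])).card : ℝ) ≤ ((x : ℝ) - g) / q + 1 := by
  have h := card_le_card_of_injOn (s := (Ioc g x).filter (fun n => n ≡ a [MOD q])) (t := range ((x - g) / q + 1))
    (fun n => (n - g - 1) / q) (by
      intro n hn
      have hn' := mem_Ioc.1 (mem_filter.1 (mem_coe.1 hn)).1
      rw [mem_coe, mem_range]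
      exact Nat.lt_succ_of_le (Nat.div_le_div_right (by omega))) (by
      intro m hm n hn h
      have hm' := mem_filter.1 (mem_coe.1 hm)
      have hn' := mem_filter.1 (mem_coe.1 hn)
      have hm1 := mem_Ioc.1 hm'.1
      have hn1 := mem_Ioc.1 hn'.1
      simp only at h
      have h2 : (m - g - 1) ≡ (n - g - 1) [MOD q] := by
        have h3 : m ≡ n [MOD q] := hm'.2.trans hn'.2.symm
        have h4 : (m - g - 1) + (g + 1) ≡ (n - g - 1) + (g + 1) [MOD q] := by
          have e1 : (m - g - 1) + (g + 1) = m := by omega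
          have e2 : (n - g - 1) + (g + 1) = n := by omega
          rwa [e1, e2]
        exact Nat.ModEq.add_right_cancel' _ h4
      have e1 := Nat.mod_add_div (m - g - 1) q
      have e2 := Nat.mod_add_div (n - g - 1) q
      have h2' : (m - g - 1) % q = (n - g - 1) % q := h2
      have : m - g - 1 = n - g - 1 := by rw [← e1, ← e2, h2', h]
      omega)
  rw [card_range] at h
  have h5 : (((x - g) / q : ℕ) : ℝ) ≤ ((x : ℝ) - g) / q := by
    have := @Nat.cast_div_le ℝ _ _ _ (x - g) q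
    rwa [Nat.cast_sub hgx] at this
  calc (((Ioc g x).filter (fun n => n ≡ a [MOD q])).card : ℝ) ≤ (((x - g) / q + 1 : ℕ) : ℝ) := by exact_mod_cast h
    _ ≤ _ := by push_cast; linarith

lemma lip {q : ℕ} (hq : 1 ≤ q) (a : ℕ) {g x : ℕ} (hgx : g ≤ x) :
    Er x q a ≤ Er g q a + 2 * (((x : ℝ) - g) / Nat.totient q) + 1 := by
  have hφ : (0 : ℝ) < Nat.totient q := by exact_mod_cast Nat.totient_pos.2 hq
  have hφq : (Nat.totient q : ℝ) ≤ q := by exact_mod_cast Nat.totient_le q
  have hxg : (0 : ℝ) ≤ (x : ℝ) - g := by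
    have : (g : ℝ) ≤ x := by exact_mod_cast hgx
    linarith
  have hu : Icc 1 x = Icc 1 g ∪ Ioc g x := by
    ext n; simp only [mem_Icc, mem_union, mem_Ioc]; omega
  have hd : Disjoint (Icc 1 g) (Ioc g x) := by
    rw [disjoint_left]
    intro n h1 h2
    rw [mem_Icc] at h1
    rw [mem_Ioc] at h2
    omega
  have h1 : (piC x q a : ℝ) = piC g q a + (((Ioc g x).filter (fun p => p.Prime ∧ p ≡ a [MOD q])).card : ℝ) := by
    unfold piC
    rw [hu, filter_union, card_union_of_disjoint (disjoint_filter_filter hd)]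
    push_cast
    rfl
  have h2 : (piA x : ℝ) = piA g + (((Ioc g x).filter (fun p => p.Prime)).card : ℝ) := by
    unfold piA
    rw [hu, filter_union, card_union_of_disjoint (disjoint_filter_filter hd)]
    push_cast
    rfl
  have h3 : (((Ioc g x).filter (fun p => p.Prime ∧ p ≡ a [MOD q])).card : ℝ) ≤ ((x : ℝ) - g) / Nat.totient q + 1 := by
    calc (((Ioc g x).filter (fun p => p.Prime ∧ p ≡ a [MOD q])).card : ℝ)
        ≤ (((Ioc g x).filter (fun n => n ≡ a [MOD q])).card : ℝ) := by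
          rw [Nat.cast_le]
          refine card_le_card ?_
          intro n hn
          rw [mem_filter] at hn ⊢
          exact ⟨hn.1, hn.2.2⟩
      _ ≤ ((x : ℝ) - g) / q + 1 := class_short hq a hgx
      _ ≤ _ := by
          have : ((x : ℝ) - g) / q ≤ ((x : ℝ) - g) / Nat.totient q := div_le_div_of_nonneg_left hxg hφ hφq
          linarith
  have h4 : (((Ioc g x).filter (fun p => p.Prime)).card : ℝ) / Nat.totient q ≤ ((x : ℝ) - g) / Nat.totient q := by
    refine div_le_div_of_nonneg_right ?_ hφ.le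
    calc (((Ioc g x).filter (fun p => p.Prime)).card : ℝ) ≤ ((Ioc g x).card : ℝ) := by
          exact_mod_cast card_filter_le _ _
      _ = (x : ℝ) - g := by rw [Nat.card_Ioc, Nat.cast_sub hgx]
  have h5 : (0 : ℝ) ≤ (((Ioc g x).filter (fun p => p.Prime ∧ p ≡ a [MOD q])).card : ℝ) := Nat.cast_nonneg _
  have h6 : (0 : ℝ) ≤ (((Ioc g x).filter (fun p => p.Prime)).card : ℝ) / Nat.totient q := by positivity
  unfold Er
  rw [h1, h2, add_div]
  have e : (piC g q a : ℝ) + (((Ioc g x).filter (fun p => p.Prime ∧ p ≡ a [MOD q])).card : ℝ) -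
      ((piA g : ℝ) / Nat.totient q + (((Ioc g x).filter (fun p => p.Prime)).card : ℝ) / Nat.totient q) =
      ((piC g q a : ℝ) - (piA g : ℝ) / Nat.totient q) +
      ((((Ioc g x).filter (fun p => p.Prime ∧ p ≡ a [MOD q])).card : ℝ) -
        (((Ioc g x).filter (fun p => p.Prime)).card : ℝ) / Nat.totient q) := by ring
  rw [e]
  refine (abs_add_le _ _).trans ?_
  rw [add_assoc]
  refine add_le_add le_rfl ?_
  rw [abs_le]
  constructor <;> linarith

end Pool.Agent.Run7.h129.MC
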