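import Mathlib
import Pool.Agent.Run7.h129.MC.BV

/-!
# The number of the bad moduli, for all lengths at once
-/

set_option autoImplicit false

open Finset Filter

namespace Pool.Agent.Run7.h129.MC

/-- all classes modulo `q` are good for all `x ≥ q^2 (log q)^B` -/
def GoodM (U B q : ℕ) : Prop := ∀ x : ℕ, (q : ℝ) ^ 2 * Real.log q ^ B ≤ x → ∀ a : ℕ, a.Coprime q →
  Er x q a ≤ x / (Nat.totient q * Real.log x ^ U)

lemma sum_inv_sq (J : ℕ) : ∑ j ∈ range (J + 1), 1 / ((j : ℝ) + 1) ^ 2 ≤ 2 - 1 / ((J : ℝ) + 1) := by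
  induction J with
  | zero => norm_num
  | succ J ih =>
    rw [sum_range_succ]
    have h : 1 / (((J + 1 : ℕ) : ℝ) + 1) ^ 2 ≤ 1 / ((J : ℝ) + 1) - 1 / (((J + 1 : ℕ) : ℝ) + 1) := by
      push_cast
      rw [div_sub_div _ _ (by positivity) (by positivity), div_le_div_iff₀ (by positivity) (by positivity)]
      nlinarith [(Nat.cast_nonneg J : (0 : ℝ) ≤ J)]
    linarith

/-- the grid points -/
def gr (U j i : ℕ) : ℕ := 2 ^ j / (16 * (j + 1) ^ U) * i

open Classical in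
/-- the moduli bad at a grid point -/
noncomputable def Bd (U B₀ N₀ F j i : ℕ) : Finset ℕ :=
  if N₀ ≤ gr U j i ∧ (F : ℝ) ^ 2 * Real.log (gr U j i) ^ B₀ < gr U j i ∧ gr U j i < 2 ^ (j + 1) ∧
      2 ^ j ≤ 2 * gr U j i ∧ 3 ≤ j ∧ Real.log F ≤ j + 1 then
    (Icc 1 F).filter (fun q => ∃ a : ℕ, a.Coprime q ∧ (2 : ℝ) ^ j / (2 * F * ((j : ℝ) + 1) ^ U) < Er (gr U j i) q a)
  else ∅

lemma Bd_card {U V B₀ N₀ : ℕ} (hBV : ∀ N : ℕ, N₀ ≤ N → ∀ Q : ℕ, (Q : ℝ) ^ 2 * Real.log N ^ B₀ < N →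
    ∀ c : ℕ → ℕ, tot N Q c ≤ N / Real.log N ^ (2 * U + V + 2)) {F : ℕ} (hF : 2 ≤ F) (j i : ℕ) :
    ((Bd U B₀ N₀ F j i).card : ℝ) * ((j : ℝ) + 1) ^ U ≤
      4 * 4 ^ (2 * U + V + 2) * (F / Real.log F ^ V) * (1 / ((j : ℝ) + 1) ^ 2) := by
  classical
  have hF0 : (0 : ℝ) < F := by exact_mod_cast (by omega : 0 < F)
  have hl : 0 < Real.log F := Real.log_pos (by exact_mod_cast (by omega : 1 < F))
  have hj1 : (0 : ℝ) < (j : ℝ) + 1 := by positivity
  unfold Bd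
  split_ifs with h
  · obtain ⟨h1, h2, h3, h4, h5, h6⟩ := h
    set g := gr U j i with hg
    have h7 := bvcount (T := (2 : ℝ) ^ j / (2 * F * ((j : ℝ) + 1) ^ U)) (hBV g h1 F h2)
    set c : ℝ := (((Icc 1 F).filter (fun q => ∃ a : ℕ, a.Coprime q ∧
      (2 : ℝ) ^ j / (2 * F * ((j : ℝ) + 1) ^ U) < Er g q a)).card : ℝ) with hc
    have hj3 : (3 : ℝ) ≤ j := by exact_mod_cast h5
    have hgR : (2 : ℝ) ^ j ≤ 2 * g := by exact_mod_cast h4
    have hgR' : (g : ℝ) ≤ 2 * 2 ^ j := by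
      have : (g : ℝ) < 2 ^ (j + 1) := by exact_mod_cast h3
      rw [pow_succ] at this
      linarith
    have hg0 : (0 : ℝ) < g := by have : (0 : ℝ) < 2 ^ j := by positivity
                                 linarith
    have hlg : ((j : ℝ) + 1) / 4 ≤ Real.log g := by
      have e1 : (2 : ℝ) ^ (j - 1) ≤ g := by
        have : (2 : ℝ) ^ j = 2 ^ (j - 1) * 2 := by
          rw [← pow_succ, Nat.sub_add_cancel (by omega)]
        linarith
      have e2 := Real.log_le_log (by positivity) e1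
      rw [Real.log_pow, Nat.cast_sub (by omega)] at e2
      push_cast at e2
      have hl2 : (1 / 2 : ℝ) < Real.log 2 := by have := Real.log_two_gt_d9; linarith
      nlinarith
    have e3 : (g : ℝ) / Real.log g ^ (2 * U + V + 2) ≤
        2 * 2 ^ j / (((j : ℝ) + 1) / 4) ^ (2 * U + V + 2) := by
      have : (((j : ℝ) + 1) / 4) ^ (2 * U + V + 2) ≤ Real.log g ^ (2 * U + V + 2) :=
        pow_le_pow_left₀ (by positivity) hlg _
      gcongr
    have e4 := h7.trans e3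
    have e5 : 2 * (2 : ℝ) ^ j / (((j : ℝ) + 1) / 4) ^ (2 * U + V + 2) =
        (4 * 4 ^ (2 * U + V + 2) * F / (((j : ℝ) + 1) ^ U * ((j : ℝ) + 1) ^ (V + 2))) *
          ((2 : ℝ) ^ j / (2 * F * ((j : ℝ) + 1) ^ U)) := by
      rw [div_pow, show 2 * U + V + 2 = U + (V + 2) + U by ring]
      simp only [pow_add]
      field_simp
      ring
    rw [e5] at e4
    have e6 := le_of_mul_le_mul_right e4 (by positivity)
    have e7 : ((j : ℝ) + 1) ^ (V + 2) = ((j : ℝ) + 1) ^ V * ((j : ℝ) + 1) ^ 2 := pow_add _ _ _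
    have e8 : Real.log F ^ V ≤ ((j : ℝ) + 1) ^ V := pow_le_pow_left₀ hl.le h6 V
    calc c * ((j : ℝ) + 1) ^ U
        ≤ (4 * 4 ^ (2 * U + V + 2) * F / (((j : ℝ) + 1) ^ U * ((j : ℝ) + 1) ^ (V + 2))) * ((j : ℝ) + 1) ^ U :=
          mul_le_mul_of_nonneg_right e6 (by positivity)
      _ = 4 * 4 ^ (2 * U + V + 2) * (F / ((j : ℝ) + 1) ^ V) * (1 / ((j : ℝ) + 1) ^ 2) := by
          rw [e7]; field_simp
      _ ≤ _ := by gcongr
  · simp only [card_empty, Nat.cast_zero, zero_mul]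
    positivity

lemma ev_log_pow (k : ℕ) (c : ℝ) : ∀ᶠ x : ℕ in atTop, c * Real.log x ^ k ≤ Real.sqrt x := by
  have h := (isLittleO_log_rpow_rpow_atTop (k : ℝ) (by norm_num : (0 : ℝ) < 1 / 2)).bound
    (by positivity : (0 : ℝ) < 1 / (|c| + 1))
  have h2 := tendsto_natCast_atTop_atTop (R := ℝ) |>.eventually h
  filter_upwards [h2, eventually_ge_atTop 1] with x hx hx1
  have hx1' : (1 : ℝ) ≤ x := by exact_mod_cast hx1
  have hl : 0 ≤ Real.log x := Real.log_nonneg hx1'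
  rw [Real.rpow_natCast, Real.norm_of_nonneg (pow_nonneg hl k), Real.norm_of_nonneg (by positivity),
    ← Real.sqrt_eq_rpow, div_mul_eq_mul_div, one_mul, le_div_iff₀ (by positivity)] at hx
  have h3 : c * Real.log x ^ k ≤ |c| * Real.log x ^ k := mul_le_mul_of_nonneg_right (le_abs_self c) (pow_nonneg hl k)
  have h4 : 0 ≤ Real.log x ^ k := pow_nonneg hl k
  nlinarith

lemma ev_pow (k c : ℕ) : ∀ᶠ j : ℕ in atTop, c * (j + 1) ^ k ≤ 2 ^ j := by
  have h1 : Tendsto (fun n : ℕ => (n : ℝ) ^ k / (2 : ℝ) ^ n) atTop (nhds 0) :=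
    tendsto_pow_const_div_const_pow_of_one_lt k (by norm_num)
  have h2 := (h1.comp (tendsto_add_atTop_nat 1)).eventually (gt_mem_nhds (by positivity : (0 : ℝ) < 1 / (2 * (c + 1))))
  filter_upwards [h2] with j hj
  simp only [Function.comp] at hj
  rw [div_lt_div_iff₀ (by positivity) (by positivity), one_mul] at hj
  have h3 : ((c * (j + 1) ^ k : ℕ) : ℝ) ≤ ((2 ^ j : ℕ) : ℝ) := by
    push_cast at hj ⊢
    rw [pow_succ] at hj
    have : 0 ≤ ((j : ℝ) + 1) ^ k := by positivity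
    nlinarith
  exact_mod_cast h3

open Classical in
/-- the grid point for a bad modulus -/
lemma wit (U V B₀ N₀ : ℕ) : ∃ F₀ : ℕ, ∀ F : ℕ, F₀ ≤ F → ∀ q : ℕ, q ≤ F → (F : ℝ) / Real.log F ^ V ≤ q →
    ¬ GoodM U (B₀ + 2 * V + 1) q →
    ∃ j i : ℕ, i < 65 * (j + 1) ^ U ∧ q ∈ Bd U B₀ N₀ F j i := by
  -- thresholds
  obtain ⟨j₀, hj₀⟩ := eventually_atTop.1 ((ev_pow (2 * U) 128).and (eventually_ge_atTop 3))
  obtain ⟨x₁, hx₁⟩ := eventually_atTop.1 (ev_log_pow B₀ 4)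
  obtain ⟨F₁, hF₁⟩ := eventually_atTop.1 (ev_log_pow V 1)
  have hlog := (Real.tendsto_log_atTop.comp (tendsto_natCast_atTop_atTop (R := ℝ))).eventually_ge_atTop
    ((4 : ℝ) ^ B₀ * 2 ^ (B₀ + 2 * V + 1 + 1) + 2)
  obtain ⟨F₂, hF₂⟩ := eventually_atTop.1 hlog
  obtain ⟨D, hD⟩ : ∃ D : ℕ, D = 2 ^ (j₀ + 1) := ⟨_, rfl⟩
  refine ⟨F₁ + F₂ + x₁ + 2 * N₀ + D + 3, fun F hF q hqF hFq hbad => ?_⟩
  have hF3 : 3 ≤ F := by omega
  have hF3R : (3 : ℝ) ≤ F := by exact_mod_cast hF3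
  have hF0 : (0 : ℝ) < F := by exact_mod_cast (by omega : 0 < F)
  have hF1 : (1 : ℝ) ≤ F := by exact_mod_cast (by omega : 1 ≤ F)
  set ℓ := Real.log F with hℓ
  have hℓ1 : (4 : ℝ) ^ B₀ * 2 ^ (B₀ + 2 * V + 1 + 1) + 2 ≤ ℓ := hF₂ F (by omega)
  have hℓ2 : 2 ≤ ℓ := by
    have : (0 : ℝ) ≤ (4 : ℝ) ^ B₀ * 2 ^ (B₀ + 2 * V + 1 + 1) := by positivity
    linarith
  have hℓ0 : 0 < ℓ := by linarith
  have hsq : ℓ ^ V ≤ Real.sqrt F := by
    have := hF₁ F (by omega)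
    simpa using this
  have hsqF : Real.sqrt F * Real.sqrt F = F := Real.mul_self_sqrt hF0.le
  have hsF0 : 0 < Real.sqrt F := Real.sqrt_pos.2 hF0
  have hqs : Real.sqrt F ≤ q := by
    refine le_trans ?_ hFq
    rw [le_div_iff₀ (by positivity)]
    nlinarith
  have hq0 : (0 : ℝ) < q := by linarith
  have hq1 : 1 ≤ q := by exact_mod_cast hq0
  have hlq : ℓ / 2 ≤ Real.log q := by
    have := Real.log_le_log hsF0 hqs
    rw [Real.log_sqrt hF0.le] at this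
    exact this
  have hlq1 : 1 ≤ Real.log q := by linarith
  have hqFR : (q : ℝ) ≤ F := by exact_mod_cast hqF
  unfold GoodM at hbad
  push Not at hbad
  obtain ⟨x, hx, a, ha, hEr⟩ := hbad
  -- lower bound for x
  have hxq : (q : ℝ) ^ 2 ≤ x := by
    refine le_trans ?_ hx
    exact le_mul_of_one_le_right (by positivity) (one_le_pow₀ hlq1)
  have hxF : (F : ℝ) ≤ x := by
    have : Real.sqrt F ^ 2 ≤ (q : ℝ) ^ 2 := pow_le_pow_left₀ hsF0.le hqs 2
    rw [sq, hsqF] at this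
    linarith
  have hxFn : F ≤ x := by exact_mod_cast hxF
  have hx0 : (0 : ℝ) < x := by linarith
  have hlx0 : 0 < Real.log x := Real.log_pos (by linarith)
  set j := Nat.log 2 x with hj
  have hxj : x < 2 ^ (j + 1) := Nat.lt_pow_succ_log_self (by norm_num) x
  have hjx : 2 ^ j ≤ x := Nat.pow_log_le_self 2 (by omega)
  have hxjR : (x : ℝ) < 2 ^ (j + 1) := by exact_mod_cast hxj
  have hjxR : (2 : ℝ) ^ j ≤ x := by exact_mod_cast hjx
  have hjj : j₀ ≤ j := by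
    have : 2 ^ (j₀ + 1) < 2 ^ (j + 1) := by rw [← hD]; omega
    have := (Nat.pow_lt_pow_iff_right (by norm_num : 1 < 2)).1 this
    omega
  obtain ⟨hj128, hj3⟩ := hj₀ j hjj
  have hj128R : (128 : ℝ) * ((j : ℝ) + 1) ^ (2 * U) ≤ 2 ^ j := by exact_mod_cast hj128
  have hl2 : (1 / 2 : ℝ) < Real.log 2 := by have := Real.log_two_gt_d9; linarith
  have hl2' : Real.log 2 < 1 := by have := Real.log_two_lt_d9; linarith
  have hlxj : Real.log x ≤ (j : ℝ) + 1 := by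
    have := Real.log_le_log hx0 hxjR.le
    rw [Real.log_pow] at this
    push_cast at this
    have h0 : (0 : ℝ) ≤ (j : ℝ) + 1 := by positivity
    nlinarith
  have hℓj : ℓ ≤ (j : ℝ) + 1 := (Real.log_le_log hF0 hxF).trans hlxj
  have hj1 : (1 : ℝ) ≤ (j : ℝ) + 1 := by linarith [(Nat.cast_nonneg j : (0 : ℝ) ≤ j)]
  have hjU1 : (1 : ℝ) ≤ ((j : ℝ) + 1) ^ U := one_le_pow₀ hj1
  -- the spacing
  set s := 2 ^ j / (16 * (j + 1) ^ U) with hs
  set r : ℝ := 2 ^ j / (16 * ((j : ℝ) + 1) ^ U) with hr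
  have hr8 : 8 ≤ r := by
    rw [hr, le_div_iff₀ (by positivity)]
    have : ((j : ℝ) + 1) ^ (2 * U) = ((j : ℝ) + 1) ^ U * ((j : ℝ) + 1) ^ U := by rw [← pow_add]; congr 1; ring
    rw [this] at hj128R
    nlinarith
  have hsr : (s : ℝ) ≤ r := by
    have := @Nat.cast_div_le ℝ _ _ _ (2 ^ j) (16 * (j + 1) ^ U)
    rw [hs, hr]
    push_cast at this ⊢
    exact this
  have hrs : r / 2 ≤ s := by
    have : r < s + 1 := by
      rw [hr, hs]
      have h1 := Nat.lt_div_mul_add (a := 2 ^ j) (b := 16 * (j + 1) ^ U) (by positivity)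
      rw [div_lt_iff₀ (by positivity)]
      have h2 : ((2 ^ j : ℕ) : ℝ) < ((2 ^ j / (16 * (j + 1) ^ U) * (16 * (j + 1) ^ U) + 16 * (j + 1) ^ U : ℕ) : ℝ) := by
        exact_mod_cast h1
      push_cast at h2 ⊢
      linarith
    linarith
  have hs0 : (0 : ℝ) < s := by linarith
  have hs0n : 0 < s := by exact_mod_cast hs0
  set i := x / s with hi
  have hgx : gr U j i ≤ x := by
    unfold gr
    rw [← hs, hi]
    exact Nat.mul_div_le x s
  have hxg : x < gr U j i + s := by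
    unfold gr
    rw [← hs, hi]
    have h1 := Nat.div_add_mod x s
    have h2 := Nat.mod_lt x hs0n
    omega
  have hxgR : (x : ℝ) - gr U j i ≤ s := by
    have : (x : ℝ) < (gr U j i : ℝ) + s := by exact_mod_cast hxg
    linarith
  have hsx : (s : ℝ) ≤ x / 16 := by
    refine hsr.trans ?_
    rw [hr]
    calc (2 : ℝ) ^ j / (16 * ((j : ℝ) + 1) ^ U) ≤ 2 ^ j / 16 := by
          refine div_le_div_of_nonneg_left (by positivity) (by norm_num) (by linarith)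
      _ ≤ x / 16 := by linarith
  have hg2 : (x : ℝ) / 2 ≤ gr U j i := by linarith
  have hg0 : (0 : ℝ) < gr U j i := by linarith
  have hi65 : i < 65 * (j + 1) ^ U := by
    have h1 : (i : ℝ) ≤ x / s := by rw [hi]; exact Nat.cast_div_le
    have h2 : (x : ℝ) / s < 65 * ((j : ℝ) + 1) ^ U := by
      rw [div_lt_iff₀ hs0]
      have h3 : (2 : ℝ) ^ j = 16 * ((j : ℝ) + 1) ^ U * r := by rw [hr]; field_simp
      rw [pow_succ, h3] at hxjR
      have h4 : 0 < ((j : ℝ) + 1) ^ U := by positivity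
      have h5 : ((j : ℝ) + 1) ^ U * (r / 2) ≤ ((j : ℝ) + 1) ^ U * s := mul_le_mul_of_nonneg_left hrs h4.le
      have h6 : 0 < ((j : ℝ) + 1) ^ U * s := by positivity
      nlinarith
    have h3 : (i : ℝ) < ((65 * (j + 1) ^ U : ℕ) : ℝ) := by push_cast; linarith
    exact_mod_cast h3
  refine ⟨j, i, hi65, ?_⟩
  unfold Bd
  have hgF : (F : ℝ) ^ 2 * Real.log (gr U j i) ^ B₀ < gr U j i := by
    refine lt_of_lt_of_le ?_ hg2
    have hgl : Real.log (gr U j i) ^ B₀ ≤ Real.log x ^ B₀ := by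
      have h1 : (1 : ℝ) ≤ gr U j i := by linarith
      exact pow_le_pow_left₀ (Real.log_nonneg h1) (Real.log_le_log hg0 (by exact_mod_cast hgx)) _
    refine lt_of_le_of_lt (mul_le_mul_of_nonneg_left hgl (by positivity)) ?_
    rcases le_or_gt (x : ℝ) ((F : ℝ) ^ 4) with h4 | h4
    · have e1 : Real.log x ≤ 4 * ℓ := by
        have := Real.log_le_log hx0 h4
        rw [Real.log_pow] at this
        push_cast at this
        exact this
      have e2 : Real.log x ^ B₀ ≤ 4 ^ B₀ * ℓ ^ B₀ := by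
        rw [← mul_pow]
        exact pow_le_pow_left₀ hlx0.le e1 _
      have e3 : ((F : ℝ) / ℓ ^ V) ^ 2 * (ℓ / 2) ^ (B₀ + 2 * V + 1) ≤ x := by
        refine le_trans ?_ hx
        have h5 : ((F : ℝ) / ℓ ^ V) ^ 2 ≤ (q : ℝ) ^ 2 := pow_le_pow_left₀ (by positivity) hFq 2
        have h6 : (ℓ / 2) ^ (B₀ + 2 * V + 1) ≤ Real.log q ^ (B₀ + 2 * V + 1) := pow_le_pow_left₀ (by positivity) hlq _
        exact mul_le_mul h5 h6 (by positivity) (by positivity)
      have e4 : ((F : ℝ) / ℓ ^ V) ^ 2 * (ℓ / 2) ^ (B₀ + 2 * V + 1) =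
          (F : ℝ) ^ 2 * ℓ ^ B₀ * ℓ / 2 ^ (B₀ + 2 * V + 1) := by
        rw [div_pow, div_pow, ← pow_mul, pow_succ ℓ, pow_add ℓ, mul_comm V 2]
        field_simp
      rw [e4, div_le_iff₀ (by positivity)] at e3
      have e5 : (4 : ℝ) ^ B₀ * 2 ^ (B₀ + 2 * V + 1 + 1) < ℓ := by linarith
      have e6 : 0 < (F : ℝ) ^ 2 * ℓ ^ B₀ := by positivity
      have e7 : (F : ℝ) ^ 2 * ℓ ^ B₀ * ((4 : ℝ) ^ B₀ * 2 ^ (B₀ + 2 * V + 1 + 1)) < (F : ℝ) ^ 2 * ℓ ^ B₀ * ℓ :=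
        mul_lt_mul_of_pos_left e5 e6
      have e8 : (F : ℝ) ^ 2 * (4 ^ B₀ * ℓ ^ B₀) < x / 2 := by
        have h2p : (0 : ℝ) < 2 ^ (B₀ + 2 * V + 1) := by positivity
        have e9 : (F : ℝ) ^ 2 * (4 ^ B₀ * ℓ ^ B₀) * 2 * 2 ^ (B₀ + 2 * V + 1) < x * 2 ^ (B₀ + 2 * V + 1) := by
          calc (F : ℝ) ^ 2 * (4 ^ B₀ * ℓ ^ B₀) * 2 * 2 ^ (B₀ + 2 * V + 1)
              = (F : ℝ) ^ 2 * ℓ ^ B₀ * ((4 : ℝ) ^ B₀ * 2 ^ (B₀ + 2 * V + 1 + 1)) := by
                rw [pow_succ (2 : ℝ) (B₀ + 2 * V + 1)]; ring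
            _ < _ := e7
            _ ≤ _ := e3
        have := lt_of_mul_lt_mul_right e9 h2p.le
        linarith
      exact lt_of_le_of_lt (mul_le_mul_of_nonneg_left e2 (by positivity)) e8
    · have e1 := hx₁ x (by omega)
      have e2 : (F : ℝ) ^ 2 < Real.sqrt x := by
        rw [Real.lt_sqrt (by positivity)]
        have e6 : ((F : ℝ) ^ 2) ^ 2 = (F : ℝ) ^ 4 := by ring
        rw [e6]
        exact h4
      have e3 : Real.sqrt x * Real.sqrt x = x := Real.mul_self_sqrt hx0.le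
      have e4 : 0 < Real.log x ^ B₀ := by positivity
      have e5 : 0 < Real.sqrt x := Real.sqrt_pos.2 hx0
      nlinarith
  have hNg : N₀ ≤ gr U j i := by
    have h1 : (2 * N₀ : ℝ) ≤ x := by exact_mod_cast (by omega : 2 * N₀ ≤ x)
    have h2 : (N₀ : ℝ) ≤ gr U j i := by linarith
    exact_mod_cast h2
  have h2j : 2 ^ j ≤ 2 * gr U j i := by
    have h2 : (2 : ℝ) ^ j ≤ 2 * gr U j i := by linarith
    exact_mod_cast h2
  rw [if_pos ⟨hNg, hgF, lt_of_le_of_lt hgx hxj, h2j, hj3, hℓj⟩, mem_filter, mem_Icc]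
  refine ⟨⟨hq1, hqF⟩, a, ha, ?_⟩
  have hφ : (0 : ℝ) < Nat.totient q := by exact_mod_cast Nat.totient_pos.2 hq1
  have hφq : (Nat.totient q : ℝ) ≤ q := by exact_mod_cast Nat.totient_le q
  have hlip := lip hq1 a hgx
  have e1 : (2 : ℝ) ^ j / (Nat.totient q * ((j : ℝ) + 1) ^ U) ≤ x / (Nat.totient q * Real.log x ^ U) := by
    have : Real.log x ^ U ≤ ((j : ℝ) + 1) ^ U := pow_le_pow_left₀ hlx0.le hlxj U
    gcongr
  have e2 : ((x : ℝ) - gr U j i) / Nat.totient q ≤ 2 ^ j / (Nat.totient q * ((j : ℝ) + 1) ^ U) / 16 := by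
    calc ((x : ℝ) - gr U j i) / Nat.totient q ≤ r / Nat.totient q := by gcongr; exact hxgR.trans hsr
      _ = _ := by rw [hr]; field_simp
  have e3 : 8 * (q : ℝ) * ((j : ℝ) + 1) ^ U ≤ 2 ^ j := by
    have h1 : (8 * (q : ℝ) * ((j : ℝ) + 1) ^ U) ^ 2 ≤ ((2 : ℝ) ^ j) ^ 2 := by
      calc (8 * (q : ℝ) * ((j : ℝ) + 1) ^ U) ^ 2 = 64 * (q : ℝ) ^ 2 * ((j : ℝ) + 1) ^ (2 * U) := by
            rw [mul_pow, mul_pow, ← pow_mul, mul_comm U 2]; norm_num
        _ ≤ 64 * (2 * 2 ^ j) * ((j : ℝ) + 1) ^ (2 * U) := by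
            have : (q : ℝ) ^ 2 ≤ 2 * 2 ^ j := by rw [pow_succ] at hxjR; linarith
            gcongr
        _ = 128 * ((j : ℝ) + 1) ^ (2 * U) * 2 ^ j := by ring
        _ ≤ 2 ^ j * 2 ^ j := mul_le_mul_of_nonneg_right hj128R (by positivity)
        _ = _ := by ring
    exact (pow_le_pow_iff_left₀ (by positivity) (by positivity) (by norm_num)).1 h1
  have e4 : (1 : ℝ) ≤ 2 ^ j / (Nat.totient q * ((j : ℝ) + 1) ^ U) / 8 := by
    rw [div_div, le_div_iff₀ (by positivity), one_mul]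
    have : (Nat.totient q : ℝ) * ((j : ℝ) + 1) ^ U ≤ q * ((j : ℝ) + 1) ^ U := mul_le_mul_of_nonneg_right hφq (by positivity)
    nlinarith
  have e5 : (2 : ℝ) ^ j / (2 * F * ((j : ℝ) + 1) ^ U) ≤ 2 ^ j / (Nat.totient q * ((j : ℝ) + 1) ^ U) / 2 := by
    rw [div_div]
    have : (Nat.totient q : ℝ) ≤ F := hφq.trans hqFR
    calc (2 : ℝ) ^ j / (2 * F * ((j : ℝ) + 1) ^ U) ≤ 2 ^ j / (2 * Nat.totient q * ((j : ℝ) + 1) ^ U) := by gcongr
      _ = _ := by congr 1; ring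
  linarith

/-- **The number of the bad moduli.** -/
theorem bad_bv (hBV : BVHyp) (U V : ℕ) : ∃ B : ℕ, ∃ C : ℝ, 0 < C ∧ ∀ F : ℕ, 2 ≤ F →
    ({q : ℕ | q < F ∧ ¬ GoodM U B q}.ncard : ℝ) ≤ C * (F / Real.log F ^ V) := by
  classical
  obtain ⟨B₀, N₀, hN⟩ := hBV (2 * U + V + 2)
  obtain ⟨F₀', hF₀'⟩ := wit U V B₀ N₀
  obtain ⟨F₁, hF₁⟩ := eventually_atTop.1 (ev_log_pow V 1)
  set F₀ := F₀' + F₁ with hF₀d
  have hF₀ := fun F (h : F₀ ≤ F) => hF₀' F (by omega)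
  set C₁ : ℝ := 65 * (4 * 4 ^ (2 * U + V + 2)) * 2 with hC₁
  have hC₁0 : 0 < C₁ := by rw [hC₁]; positivity
  have hlF : 0 < Real.log ((F₀ : ℝ) + 2) := Real.log_pos (by linarith [(Nat.cast_nonneg F₀ : (0 : ℝ) ≤ F₀)])
  refine ⟨B₀ + 2 * V + 1, 2 + C₁ + (Real.log ((F₀ : ℝ) + 2) ^ V), by have := pow_pos hlF V; linarith,
    fun F hF => ?_⟩
  have hF0 : (0 : ℝ) < F := by exact_mod_cast (by omega : 0 < F)
  have hF1 : (1 : ℝ) < F := by exact_mod_cast (by omega : 1 < F)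
  have hl : 0 < Real.log F := Real.log_pos hF1
  have hP : 0 < (F : ℝ) / Real.log F ^ V := by positivity
  by_cases hFF : F₀ ≤ F
  · -- witnesses
    have hex : ∀ q : ℕ, ∃ ji : ℕ × ℕ, (q ≤ F ∧ (F : ℝ) / Real.log F ^ V ≤ q ∧ ¬ GoodM U (B₀ + 2 * V + 1) q) →
        (ji.2 < 65 * (ji.1 + 1) ^ U ∧ q ∈ Bd U B₀ N₀ F ji.1 ji.2) := by
      intro q
      by_cases h : q ≤ F ∧ (F : ℝ) / Real.log F ^ V ≤ q ∧ ¬ GoodM U (B₀ + 2 * V + 1) q
      · obtain ⟨j, i, h1, h2⟩ := hF₀ F hFF q h.1 h.2.1 h.2.2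
        exact ⟨(j, i), fun _ => ⟨h1, h2⟩⟩
      · exact ⟨(0, 0), fun h' => absurd h' h⟩
    choose w hw using hex
    set J := (range (F + 1)).sup (fun q => (w q).1) with hJ
    have hcov : {q : ℕ | q < F ∧ ¬ GoodM U (B₀ + 2 * V + 1) q} ⊆
        ((range ⌈(F : ℝ) / Real.log F ^ V⌉₊ ∪ (range (J + 1)).biUnion (fun j =>
          (range (65 * (j + 1) ^ U)).biUnion (fun i => Bd U B₀ N₀ F j i)) : Finset ℕ) : Set ℕ) := by
      rintro q ⟨hq, hbad⟩
      rw [mem_coe, mem_union]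
      by_cases h : (F : ℝ) / Real.log F ^ V ≤ q
      · right
        obtain ⟨h1, h2⟩ := hw q ⟨hq.le, h, hbad⟩
        rw [mem_biUnion]
        refine ⟨(w q).1, mem_range.2 (Nat.lt_succ_of_le ?_), ?_⟩
        · rw [hJ]
          exact le_sup (f := fun q => (w q).1) (mem_range.2 (by omega))
        · rw [mem_biUnion]
          exact ⟨(w q).2, mem_range.2 h1, h2⟩
      · left
        push Not at h
        rw [mem_range]
        exact Nat.lt_ceil.2 h
    have h1 := Set.ncard_le_ncard hcov (Finset.finite_toSet _)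
    rw [Set.ncard_coe_finset] at h1
    have h2 : ∀ j ∈ range (J + 1), ((((range (65 * (j + 1) ^ U)).biUnion
        (fun i => Bd U B₀ N₀ F j i)).card : ℕ) : ℝ) ≤
        65 * (4 * 4 ^ (2 * U + V + 2)) * (F / Real.log F ^ V) * (1 / ((j : ℝ) + 1) ^ 2) := by
      intro j _
      have hj1 : (0 : ℝ) < (j : ℝ) + 1 := by positivity
      have hjU : (0 : ℝ) < ((j : ℝ) + 1) ^ U := by positivity
      calc ((((range (65 * (j + 1) ^ U)).biUnion (fun i => Bd U B₀ N₀ F j i)).card : ℕ) : ℝ)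
          ≤ ((∑ i ∈ range (65 * (j + 1) ^ U), (Bd U B₀ N₀ F j i).card : ℕ) : ℝ) := by
            exact_mod_cast card_biUnion_le
        _ = ∑ i ∈ range (65 * (j + 1) ^ U), ((Bd U B₀ N₀ F j i).card : ℝ) := by push_cast; rfl
        _ ≤ ∑ i ∈ range (65 * (j + 1) ^ U),
            (4 * 4 ^ (2 * U + V + 2) * (F / Real.log F ^ V) * (1 / ((j : ℝ) + 1) ^ 2)) / ((j : ℝ) + 1) ^ U := by
            refine sum_le_sum fun i _ => ?_
            rw [le_div_iff₀ hjU]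
            exact Bd_card (V := V) hN hF j i
        _ = _ := by
            rw [sum_const, card_range, nsmul_eq_mul]
            push_cast
            field_simp
    have h3 : ({q : ℕ | q < F ∧ ¬ GoodM U (B₀ + 2 * V + 1) q}.ncard : ℝ) ≤
        (⌈(F : ℝ) / Real.log F ^ V⌉₊ : ℝ) + ∑ j ∈ range (J + 1),
          65 * (4 * 4 ^ (2 * U + V + 2)) * (F / Real.log F ^ V) * (1 / ((j : ℝ) + 1) ^ 2) := by
      calc ({q : ℕ | q < F ∧ ¬ GoodM U (B₀ + 2 * V + 1) q}.ncard : ℝ)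
          ≤ (((range ⌈(F : ℝ) / Real.log F ^ V⌉₊).card + ∑ j ∈ range (J + 1), ((range (65 * (j + 1) ^ U)).biUnion
            (fun i => Bd U B₀ N₀ F j i)).card : ℕ) : ℝ) := by
            exact_mod_cast h1.trans ((card_union_le _ _).trans (Nat.add_le_add_left card_biUnion_le _))
        _ ≤ _ := by
            push_cast
            rw [card_range]
            exact add_le_add le_rfl (sum_le_sum h2)
    have h4 := sum_inv_sq J
    have h5 : (0 : ℝ) ≤ 1 / ((J : ℝ) + 1) := by positivity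
    rw [← mul_sum] at h3
    have h6 : 65 * (4 * 4 ^ (2 * U + V + 2)) * (F / Real.log F ^ V) * ∑ j ∈ range (J + 1), 1 / ((j : ℝ) + 1) ^ 2 ≤
        65 * (4 * 4 ^ (2 * U + V + 2)) * (F / Real.log F ^ V) * 2 :=
      mul_le_mul_of_nonneg_left (by linarith) (by positivity)
    have h7 : 1 ≤ (F : ℝ) / Real.log F ^ V := by
      rw [le_div_iff₀ (by positivity), one_mul]
      have h10 := hF₁ F (by omega)
      rw [one_mul] at h10
      refine h10.trans ?_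
      rw [Real.sqrt_le_left hF0.le]
      nlinarith
    have h8 := Nat.ceil_lt_add_one hP.le
    have h9 : 0 ≤ Real.log (F₀ + 2) ^ V * (F / Real.log F ^ V) := by positivity
    rw [hC₁]
    nlinarith
  · push Not at hFF
    have h1 : ({q : ℕ | q < F ∧ ¬ GoodM U (B₀ + 2 * V + 1) q}.ncard : ℝ) ≤ F := by
      have h2 : {q : ℕ | q < F ∧ ¬ GoodM U (B₀ + 2 * V + 1) q} ⊆ ((range F : Finset ℕ) : Set ℕ) := by
        rintro q ⟨hq, -⟩
        rw [mem_coe, mem_range]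
        exact hq
      have h3 := Set.ncard_le_ncard h2 (Finset.finite_toSet _)
      rw [Set.ncard_coe_finset, card_range] at h3
      exact_mod_cast h3
    refine h1.trans ?_
    have h2 : Real.log F ^ V ≤ Real.log (F₀ + 2) ^ V := by
      refine pow_le_pow_left₀ hl.le (Real.log_le_log hF0 ?_) V
      have : (F : ℝ) ≤ F₀ := by exact_mod_cast hFF.le
      linarith
    have h3 : (F : ℝ) = Real.log F ^ V * (F / Real.log F ^ V) := by field_simp
    calc (F : ℝ) = Real.log F ^ V * (F / Real.log F ^ V) := h3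
      _ ≤ Real.log (F₀ + 2) ^ V * (F / Real.log F ^ V) := mul_le_mul_of_nonneg_right h2 hP.le
      _ ≤ _ := by
          refine mul_le_mul_of_nonneg_right ?_ hP.le
          have : 0 ≤ C₁ := by positivity
          linarith

end Pool.Agent.Run7.h129.MC
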